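import Pool.Agent.Helper793.WIter.Main

set_option autoImplicit false

namespace Pool.Agent.Results.MP_17b696_nt.SmallOrbits

/-- `w m`: the sum over the prime powers `p ^ a` exactly dividing `m` of `m / p ^ a`. -/
def w (m : ℕ) : ℕ := ∑ p ∈ m.primeFactors, m / p ^ (m.factorization p)

/-- Two steps of `w` strictly decrease every `n` with `n * w n` at most the product of the primes
up to `271`; every orbit that starts at `2 ≤ n ≤ 10 ^ 55` is bounded by `2 * n` and reaches `1`;
and every orbit that ever enters `[1, 10 ^ 55]` is bounded. -/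
theorem result :
    (∀ n : ℕ, 1 ≤ n → n * w n ≤ ∏ p ∈ (Finset.range 272).filter Nat.Prime, p → w (w n) < n) ∧
    (∀ n : ℕ, 2 ≤ n → n ≤ 10 ^ 55 →
      w (w n) < n ∧ (∀ k : ℕ, w^[k] n ≤ 2 * n) ∧ ∃ k : ℕ, w^[k] n = 1) ∧
    (∀ n j : ℕ, w^[j] n ≤ 10 ^ 55 → ∃ B : ℕ, ∀ k : ℕ, w^[k] n ≤ B) := by
  have hw : w = Pool.Helper793.WIter.w := rfl
  rw [hw]
  refine ⟨?_, ?_, ?_⟩
  · intro n hn h
    apply Pool.Helper793.WIter.two_steps hn
    unfold Pool.Helper793.WIter.P
    exact h
  · intro n hn h
    exact ⟨Pool.Helper793.WIter.two_steps' (by omega) h,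
      fun k => Pool.Helper793.WIter.all_iter h k,
      Pool.Helper793.WIter.reaches_one (by omega) h⟩
  · intro n j h
    refine ⟨2 * (Pool.Helper793.WIter.w^[j] n) +
      ∑ i ∈ Finset.range j, Pool.Helper793.WIter.w^[i] n, fun k => ?_⟩
    rcases lt_or_ge k j with hk | hk
    · have h1 := Finset.single_le_sum (f := fun i => Pool.Helper793.WIter.w^[i] n)
        (fun i _ => Nat.zero_le _) (Finset.mem_range.2 hk)
      exact h1.trans (Nat.le_add_left _ _)
    · obtain ⟨d, rfl⟩ := Nat.exists_eq_add_of_le hk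
      have h1 := Pool.Helper793.WIter.all_iter h d
      rw [← Function.iterate_add_apply] at h1
      rw [add_comm j d]
      exact h1.trans (Nat.le_add_right _ _)

end Pool.Agent.Results.MP_17b696_nt.SmallOrbits
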